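import Pool.Agent.H23.D2.Grd2

/-!
# The natural components of a covector, two places

`box_ncp`: a polynomial which is bounded by `M` on a box of sides `2 ^ (-u)`, `2 ^ (-g)`: its natural
components, their differences at near points, and the Taylor polynomial of order one.
-/

set_option autoImplicit false

namespace Pool.TSW4

open Finset Real MvPolynomial
open Pool.Agent.H49.Ent Pool.Agent.H32.Dense Pool.STK Pool.KA Pool.KSAT Pool.K2S Pool.PB Pool.S6C
open Pool.GEN Pool.CHT Pool.CHX Pool.ISO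
open Pool.D2R

variable {m : ℕ}

/-- The first chart does not matter. -/
theorem ncp_two {c : ℕ → Fin m} (hc : Set.InjOn c (Set.Iio 2))
    {ψ : ℕ → MvPolynomial (Option (Fin m)) ℝ} (h0 : DepC c 0 (ψ 0)) (h1 : DepC c 1 (ψ 1))
    {P : MvPolynomial (Option (Fin m)) ℝ} (hP : DepC c 2 P) (x : Option (Fin m) → ℝ) (j : ℕ) :
    ncp c 2 ψ P x j = ncp c 2 (fun l => if l = 1 then ψ 1 else 0) P x j := by
  obtain ⟨ψ', hψ'⟩ : ∃ ψ' : ℕ → MvPolynomial (Option (Fin m)) ℝ,
    ψ' = fun l => if l < 2 then ψ l else 0 := ⟨_, rfl⟩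
  have e0 : ncp c 2 ψ P x j = ncp c 2 ψ' P x j :=
    ncp_charts (fun l hl => by rw [hψ']; exact (if_pos hl).symm) _ _ _
  have d1 : ∀ l, DepC c l ((fun l => if l = 1 then ψ 1 else 0 :
      ℕ → MvPolynomial (Option (Fin m)) ℝ) l) := by
    intro l
    show DepC c l (if l = 1 then ψ 1 else 0)
    split_ifs with h
    · rw [h]
      exact h1
    · exact fun b b' _ _ => by rw [map_zero, map_zero]
  have d0 : ∀ l, DepC c l (ψ' l) := by
    intro l
    rw [hψ']
    show DepC c l (if l < 2 then ψ l else 0)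
    split_ifs with h
    · rcases Nat.lt_or_ge l 1 with h2 | h2
      · have : l = 0 := by omega
        rw [this]
        exact h0
      · have : l = 1 := by omega
        rw [this]
        exact h1
    · exact fun b b' _ _ => by rw [map_zero, map_zero]
  obtain ⟨W, hW0, hW⟩ := vec_adapt hc d1 x 0 (fun l => if l = j then 1 else 0) 2 le_rfl
  rw [e0, ncp_eq d1 hP hW0 hW, ncp_eq d0 hP hW0 fun l hl => ?_]
  rw [← hW l hl]
  congr 1
  rw [hψ']
  show dd (if l < 2 then ψ l else 0) x W = dd (if l = 1 then ψ 1 else 0) x W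
  rw [if_pos hl]
  rcases Nat.lt_or_ge l 1 with h2 | h2
  · have : l = 0 := by omega
    subst this
    rw [if_neg (by norm_num)]
    have e1 : dd (ψ 0) x W = dd (ψ 0) x 0 := dd_congr h0 x hW0 fun j hj =>
      absurd hj (Nat.not_lt_zero j)
    rw [e1]
    unfold dd
    simp
  · have : l = 1 := by omega
    subst this
    rw [if_pos rfl]

/-- **(B) The natural components on a box**, two places. -/
theorem box_ncp (K : ℕ) : ∃ C : ℝ, 1 ≤ C ∧ ∀ {m : ℕ} {c : ℕ → Fin m}
    {ψ : ℕ → MvPolynomial (Option (Fin m)) ℝ} {P : MvPolynomial (Option (Fin m)) ℝ}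
    {u g n : ℕ} {M : ℝ} {x y : Option (Fin m) → ℝ}, Set.InjOn c (Set.Iio 2) → DepC c 0 (ψ 0) →
    DepC c 1 (ψ 1) → (ψ 1).totalDegree ≤ K → DepC c 2 P → P.totalDegree ≤ K → 4 ≤ n → 0 ≤ M →
    (∀ b : Option (Fin m) → ℝ, |b none - x none| ≤ 1 / 2 ^ u →
      |b (some (c 0)) - x (some (c 0))| ≤ 1 / 2 ^ u →
      |b (some (c 1)) - eval b (ψ 1)| ≤ 2 / 2 ^ g → |eval b P| ≤ M) →
    |x (some (c 1)) - eval x (ψ 1)| ≤ 1 / 2 ^ g → y none = x none →
    |y (some (c 0)) - x (some (c 0))| ≤ 1 / 2 ^ (u + n) →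
    |(y (some (c 1)) - eval y (ψ 1)) - (x (some (c 1)) - eval x (ψ 1))| ≤ 1 / 2 ^ (g + n) →
    |ncp c 2 ψ P x 0| ≤ C * M * 2 ^ u ∧ |ncp c 2 ψ P x 1| ≤ C * M * 2 ^ g ∧
    |ncp c 2 ψ P x 0 - ncp c 2 ψ P y 0| ≤ C * M * 2 ^ u / 2 ^ n ∧
    |ncp c 2 ψ P x 1 - ncp c 2 ψ P y 1| ≤ C * M * 2 ^ g / 2 ^ n ∧
    |eval y P - eval x P - (ncp c 2 ψ P x 0 * (y (some (c 0)) - x (some (c 0))) +
      ncp c 2 ψ P x 1 * ((y (some (c 1)) - eval y (ψ 1)) - (x (some (c 1)) - eval x (ψ 1))))| ≤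
      C * M / (2 ^ n) ^ 2 := by
  classical
  obtain ⟨C, hC, hpt⟩ := prod_two 2 (K * (K + 1) ^ 2)
  refine ⟨C, hC, ?_⟩
  intro m c ψ P u g n M x y hc h0 h1 hψd hP hPd _ hM hbox hx1 hyn hy0 hy1
  obtain ⟨ψ', hψ'⟩ : ∃ ψ' : ℕ → MvPolynomial (Option (Fin m)) ℝ,
    ψ' = fun l => if l = 1 then ψ 1 else 0 := ⟨_, rfl⟩
  have hnc : ∀ (z : Option (Fin m) → ℝ) (j : ℕ), ncp c 2 ψ P z j = ncp c 2 ψ' P z j := by
    intro z j
    rw [hψ']
    exact ncp_two hc h0 h1 hP z j
  have p0 : ψ' 0 = 0 := by rw [hψ']; exact if_neg (by norm_num)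
  have p1 : ψ' 1 = ψ 1 := by rw [hψ']; exact if_pos rfl
  have hdep : ∀ l, DepC c l (ψ' l) := by
    intro l
    rw [hψ']
    show DepC c l (if l = 1 then ψ 1 else 0)
    split_ifs with h
    · rw [h]
      exact h1
    · exact fun b b' _ _ => by rw [map_zero, map_zero]
  have hdeg : ∀ l, (ψ' l).totalDegree ≤ K := by
    intro l
    rw [hψ']
    show (if l = 1 then ψ 1 else 0 : MvPolynomial (Option (Fin m)) ℝ).totalDegree ≤ K
    split_ifs
    · exact hψd
    · rw [totalDegree_zero]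
      exact Nat.zero_le _
  have hcne : c 0 ≠ c 1 := fun h => by
    have := hc (show 0 < 2 by norm_num) (show 1 < 2 by norm_num) h
    exact absurd this (by norm_num)
  -- the polynomial in the heights
  obtain ⟨F, hF⟩ : ∃ F : MvPolynomial (Option (Fin m)) ℝ,
    F = bind₁ (fib c ψ' 0 x 2) P := ⟨_, rfl⟩
  have hFe : ∀ e, eval e F = eval (fpt c ψ' 0 2 x e) P := fun e => by
    rw [hF, ev_bind]
    rfl
  have hFd : F.totalDegree ≤ K * (K + 1) ^ 2 := by
    rw [hF]
    exact deg_bind (fib_deg hdeg 2) hPd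
  have hFp : DepC c 2 F := by
    rw [hF]
    exact fib_depC hc hdep le_rfl hP
  -- the heights
  obtain ⟨e₀, he₀⟩ : ∃ e₀ : Option (Fin m) → ℝ, e₀ = fun o => if o = some (c 0) then
    x (some (c 0)) else if o = some (c 1) then x (some (c 1)) - eval x (ψ 1) else 0 := ⟨_, rfl⟩
  obtain ⟨e₁, he₁⟩ : ∃ e₁ : Option (Fin m) → ℝ, e₁ = fun o => if o = some (c 0) then
    y (some (c 0)) else if o = some (c 1) then y (some (c 1)) - eval y (ψ 1) else 0 := ⟨_, rfl⟩
  have a0 : e₀ (some (c 0)) = x (some (c 0)) := by rw [he₀]; exact if_pos rfl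
  have hne : (some (c 1) : Option (Fin m)) ≠ some (c 0) := fun h =>
    hcne (Option.some_injective _ h).symm
  have a1 : e₀ (some (c 1)) = x (some (c 1)) - eval x (ψ 1) := by
    rw [he₀]
    show (if (some (c 1) : Option (Fin m)) = some (c 0) then _ else _) = _
    rw [if_neg hne, if_pos rfl]
  have b0 : e₁ (some (c 0)) = y (some (c 0)) := by rw [he₁]; exact if_pos rfl
  have b1 : e₁ (some (c 1)) = y (some (c 1)) - eval y (ψ 1) := by
    rw [he₁]
    show (if (some (c 1) : Option (Fin m)) = some (c 0) then _ else _) = _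
    rw [if_neg hne, if_pos rfl]
  have an : e₀ none = 0 := by
    rw [he₀]
    show (if (none : Option (Fin m)) = some (c 0) then _ else _) = _
    rw [if_neg (by simp), if_neg (by simp)]
  have bn : e₁ none = 0 := by
    rw [he₁]
    show (if (none : Option (Fin m)) = some (c 0) then _ else _) = _
    rw [if_neg (by simp), if_neg (by simp)]
  have h2c : ∀ {Q : ℕ → Prop}, Q 0 → Q 1 → ∀ l < 2, Q l := by
    intro Q q0 q1 l hl
    rcases Nat.lt_or_ge l 1 with h2 | h2
    · have : l = 0 := by omega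
      rw [this]
      exact q0
    · have : l = 1 := by omega
      rw [this]
      exact q1
  -- the points of the fibre
  have fx : ∀ l < 2, fpt c ψ' 0 2 x e₀ (some (c l)) = x (some (c l)) :=
    fpt_inv hc hdep rfl (fun l _ h => absurd h (Nat.not_lt_zero l)) fun l hl _ =>
      h2c (Q := fun l => e₀ (some (c l)) = x (some (c l)) - eval x (ψ' l))
        (by rw [a0, p0, map_zero, sub_zero]) (by rw [a1, p1]) l hl
  have fy : ∀ l < 2, fpt c ψ' 0 2 x e₁ (some (c l)) = y (some (c l)) :=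
    fpt_inv hc hdep hyn (fun l _ h => absurd h (Nat.not_lt_zero l)) fun l hl _ =>
      h2c (Q := fun l => e₁ (some (c l)) = y (some (c l)) - eval y (ψ' l))
        (by rw [b0, p0, map_zero, sub_zero]) (by rw [b1, p1]) l hl
  have fn : ∀ e, fpt c ψ' 0 2 x e none = x none := fun e => fpt_none 2 e
  obtain ⟨V, hV⟩ : ∃ V : ℕ → Option (Fin m) → ℝ, V = fun j o =>
    if o = some (c j) then 1 else 0 := ⟨_, rfl⟩
  have hVn : ∀ j, V j none = 0 := fun j => by
    rw [hV]
    exact if_neg (by simp)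
  have v00 : V 0 (some (c 0)) = 1 := by rw [hV]; exact if_pos rfl
  have v01 : V 0 (some (c 1)) = 0 := by rw [hV]; exact if_neg hne
  have v10 : V 1 (some (c 0)) = 0 := by rw [hV]; exact if_neg (Ne.symm hne)
  have v11 : V 1 (some (c 1)) = 1 := by rw [hV]; exact if_pos rfl
  have hncx : ∀ j < 2, dd F e₀ (V j) = ncp c 2 ψ P x j ∧ dd F e₁ (V j) = ncp c 2 ψ P y j := by
    intro j hj
    have hVj : ∀ l < 2, V j (some (c l)) = if l = j then 1 else 0 := by
      have : ∀ j < 2, ∀ l < 2, V j (some (c l)) = if l = j then 1 else 0 :=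
        h2c (Q := fun j => ∀ l < 2, V j (some (c l)) = if l = j then 1 else 0)
          (h2c (by rw [v00, if_pos rfl]) (by rw [v01, if_neg (by norm_num)]))
          (h2c (by rw [v10, if_neg (by norm_num)]) (by rw [v11, if_pos rfl]))
      exact this j hj
    constructor
    · rw [hF, fib_ncp hc hdep hP e₀ (Nat.zero_le j) hVj, hnc]
      exact ncp_congr hc hdep hP (fn e₀) fx j
    · rw [hF, fib_ncp hc hdep hP e₁ (Nat.zero_le j) hVj, hnc]
      exact ncp_congr hc hdep hP ((fn e₁).trans hyn.symm) fy j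
  obtain ⟨γ, hγ⟩ : ∃ γ : ℕ → ℕ, γ = fun l => if l = 0 then u else g := ⟨_, rfl⟩
  have g0 : γ 0 = u := by rw [hγ]; exact if_pos rfl
  have g1 : γ 1 = g := by rw [hγ]; exact if_neg (by norm_num)
  have pu : (0 : ℝ) < 2 ^ u := by positivity
  have pg : (0 : ℝ) < 2 ^ g := by positivity
  have pn : (0 : ℝ) < 2 ^ n := by positivity
  have pn1 : (1 : ℝ) ≤ 2 ^ n := one_le_pow₀ (by norm_num)
  obtain ⟨k1, k2, k3, -⟩ := hpt (c := c) (F := F) (g := γ) (M := M) (δ := 1 / 2 ^ n) (e₀ := e₀)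
    (e₁ := e₁) hc hFp hFd hM (fun e he => by
      rw [hFe]
      have r0 := he 0 (by norm_num)
      have r1 := he 1 (by norm_num)
      rw [a0, g0] at r0
      rw [a1, g1] at r1
      have s0 := fpt_ge (c := c) (ψ := ψ') (k₀ := 0) (x := x) hc hdep e (l := 0) (by norm_num)
        le_rfl
      have s1 := fpt_ge (c := c) (ψ := ψ') (k₀ := 0) (x := x) hc hdep e (l := 1) (by norm_num)
        (Nat.zero_le 1)
      rw [p0, map_zero, zero_add] at s0
      rw [p1] at s1
      refine hbox _ ?_ ?_ ?_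
      · rw [fn, sub_self, abs_zero]
        positivity
      · rw [s0]
        exact r0
      · rw [s1, add_sub_cancel_left]
        have e1 : e (some (c 1)) = (e (some (c 1)) - (x (some (c 1)) - eval x (ψ 1))) +
          (x (some (c 1)) - eval x (ψ 1)) := by ring
        rw [e1]
        refine (abs_add_le _ _).trans ((add_le_add r1 hx1).trans (le_of_eq ?_))
        ring) (bn.trans an.symm) (by positivity) ((div_le_one pn).2 pn1)
    (h2c (by
      rw [a0, b0, g0]
      refine hy0.trans (le_of_eq ?_)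
      rw [pow_add]
      field_simp) (by
      rw [a1, b1, g1]
      refine hy1.trans (le_of_eq ?_)
      rw [pow_add]
      field_simp))
  have hs0 : ∑ j ∈ range 2, (2 : ℝ) ^ γ j * |V 0 (some (c j))| = 2 ^ u := by
    rw [Finset.sum_range_succ, Finset.sum_range_one, v00, v01, g0, abs_one, abs_zero]
    ring
  have hs1 : ∑ j ∈ range 2, (2 : ℝ) ^ γ j * |V 1 (some (c j))| = 2 ^ g := by
    rw [Finset.sum_range_succ, Finset.sum_range_one, v10, v11, g1, abs_one, abs_zero]
    ring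
  have q1 := k1 (V 0) (hVn 0)
  have q2 := k1 (V 1) (hVn 1)
  have q3 := k2 (V 0) (hVn 0)
  have q4 := k2 (V 1) (hVn 1)
  rw [hs0] at q1 q3
  rw [hs1] at q2 q4
  rw [(hncx 0 (by norm_num)).1] at q1
  rw [(hncx 1 (by norm_num)).1] at q2
  rw [(hncx 0 (by norm_num)).1, (hncx 0 (by norm_num)).2, abs_sub_comm] at q3
  rw [(hncx 1 (by norm_num)).1, (hncx 1 (by norm_num)).2, abs_sub_comm] at q4
  refine ⟨q1, q2, q3.trans (le_of_eq (by ring)), q4.trans (le_of_eq (by ring)), ?_⟩
  -- Taylor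
  have t1 : eval e₀ F = eval x P := by
    rw [hFe]
    exact hP _ _ (fn e₀) fx
  have t2 : eval e₁ F = eval y P := by
    rw [hFe]
    exact hP _ _ ((fn e₁).trans hyn.symm) fy
  have t3 : dd F e₀ (fun o => e₁ o - e₀ o) =
      dd F e₀ (fun o => (y (some (c 0)) - x (some (c 0))) * V 0 o +
        ((y (some (c 1)) - eval y (ψ 1)) - (x (some (c 1)) - eval x (ψ 1))) * V 1 o) :=
    dd_congr hFp e₀ (by
      show e₁ none - e₀ none = _ * V 0 none + _ * V 1 none
      rw [bn, an, hVn, hVn]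
      ring) (h2c (by
      show e₁ (some (c 0)) - e₀ (some (c 0)) = _ * V 0 (some (c 0)) + _ * V 1 (some (c 0))
      rw [b0, a0, v00, v10]
      ring) (by
      show e₁ (some (c 1)) - e₀ (some (c 1)) = _ * V 0 (some (c 1)) + _ * V 1 (some (c 1))
      rw [b1, a1, v01, v11]
      ring))
  have t4 : ∀ s t : ℝ, dd F e₀ (fun o => s * V 0 o + t * V 1 o) =
      s * dd F e₀ (V 0) + t * dd F e₀ (V 1) := by
    intro s t
    unfold dd
    rw [Finset.mul_sum, Finset.mul_sum, ← Finset.sum_add_distrib]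
    exact Finset.sum_congr rfl fun o _ => by ring
  rw [t1, t2, t3, t4, (hncx 0 (by norm_num)).1, (hncx 1 (by norm_num)).1] at k3
  have t5 : ∀ s t a b : ℝ, a - b - (s * ncp c 2 ψ P x 0 + t * ncp c 2 ψ P x 1) =
      a - b - (ncp c 2 ψ P x 0 * s + ncp c 2 ψ P x 1 * t) := fun s t a b => by ring
  rw [t5] at k3
  refine k3.trans (le_of_eq ?_)
  rw [div_pow, one_pow, mul_one_div]

end Pool.TSW4
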